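import Pool.Agent.MP_1246c0_nt.H12.SpecR

/-! The mean number of closed chains. -/

namespace Pool.Agent.MP_1246c0_nt.H12

open Polynomial Finset Matrix

namespace GD

theorem card_prod {α β : Type} [Fintype α] [Fintype β] (p : α → β → Prop) :
    Nat.card {q : α × β // p q.1 q.2} = ∑ x, Nat.card {y // p x y} := by
  rw [Nat.card_congr (Equiv.subtypeProdEquivSigmaSubtype p), Nat.card_sigma]

theorem card_swap {α β : Type} [Fintype α] [Fintype β] (p : α → β → Prop) :
    ∑ x, Nat.card {y // p x y} = ∑ y, Nat.card {x // p x y} := by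
  rw [← card_prod, ← card_prod fun y x => p x y]
  exact Nat.card_congr ((Equiv.prodComm α β).subtypeEquiv fun _ => Iff.rfl)

theorem card_mono {α : Type} [Finite α] {p q : α → Prop} (h : ∀ x, p x → q x) :
    Nat.card {x // p x} ≤ Nat.card {x // q x} :=
  Nat.card_le_card_of_injective (fun x => ⟨x.1, h _ x.2⟩) fun _ _ e =>
    Subtype.ext (congrArg (fun t => t.1) e)

theorem card_fib {α β γ : Type} [Finite β] [Finite γ] (p : α → Prop) (q : β → Prop) (g : α → β)
    (h : α → γ) (r : β → γ → Prop) (N c : ℕ) (inj : ∀ x x', g x = g x' → h x = h x' → x = x')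
    (hp : ∀ x, p x → q (g x) ∧ r (g x) (h x)) (hr : ∀ y, q y → Nat.card {w // r y w} * c ≤ N) :
    Nat.card {x // p x} * c ≤ Nat.card {y // q y} * N := by
  have := Fintype.ofFinite {y // q y}
  have h1 : Nat.card {x // p x} ≤ Nat.card (Σ y : {y // q y}, {w // r y.1 w}) := by
    refine Nat.card_le_card_of_injective
      (fun x => ⟨⟨g x.1, (hp _ x.2).1⟩, ⟨h x.1, (hp _ x.2).2⟩⟩) fun x x' e => Subtype.ext ?_
    exact inj _ _ (congrArg (fun t => t.1.1) e) (congrArg (fun t => t.2.1) e)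
  refine (Nat.mul_le_mul_right c h1).trans ?_
  rw [Nat.card_sigma, Finset.sum_mul]
  refine (Finset.sum_le_card_nsmul _ _ N fun y _ => hr y.1 y.2).trans ?_
  simp

theorem fib_le {V W : Type} [AddCommGroup V] [AddCommGroup W] [Finite V] (L : V →+ W) (t : W) :
    Nat.card {w // L w = t} ≤ Nat.card L.ker := by
  by_cases h : ∃ w0, L w0 = t
  · obtain ⟨w0, h0⟩ := h
    refine Nat.card_le_card_of_injective (fun w => ⟨w.1 - w0, ?_⟩) fun w w' e => Subtype.ext ?_
    · rw [AddMonoidHom.mem_ker, map_sub, w.2, h0, sub_self]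
    · simpa using congrArg (fun t => t.1) e
  · have : IsEmpty {w // L w = t} := ⟨fun w => h ⟨w.1, w.2⟩⟩
    simp

theorem ker_mul {V W : Type} [AddCommGroup V] [AddCommGroup W] (L : V →+ W) :
    Nat.card L.ker * Nat.card L.range = Nat.card V := by
  rw [← Nat.card_congr (QuotientAddGroup.quotientKerEquivRange L).toEquiv, mul_comm]
  exact (AddSubgroup.card_eq_card_quotient_mul_card_addSubgroup _).symm

theorem card_fun (κ : Type) [Fintype κ] : Nat.card (κ → F2) = 2 ^ Fintype.card κ := by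
  rw [Nat.card_fun]; simp

theorem aff {ι κ : Type} [Fintype ι] [Fintype κ] [DecidableEq κ] (L : (ι → F2) →ₗ[F2] κ → F2)
    (h : ∀ lam : κ → F2, (∀ w, ∑ c, lam c * L w c = 0) → lam = 0) (t : κ → F2) :
    Nat.card {w // L w = t} * 2 ^ Fintype.card κ ≤ 2 ^ Fintype.card ι := by
  have hs : LinearMap.range L = ⊤ := by
    by_contra hne
    obtain ⟨μ, h1, h2⟩ := Submodule.exists_dual_map_eq_bot_of_lt_top (lt_top_iff_ne_top.2 hne)
      inferInstance
    have e : ∀ x : κ → F2, μ x = ∑ c, μ (Pi.single c 1) * x c := by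
      intro x
      conv_lhs => rw [← Finset.univ_sum_single x, map_sum]
      refine Finset.sum_congr rfl fun c _ => ?_
      have : (Pi.single c (x c) : κ → F2) = x c • (Pi.single c 1 : κ → F2) := by
        rw [← Pi.single_smul, smul_eq_mul, mul_one]
      rw [this, map_smul, smul_eq_mul, mul_comm]
    have h3 := h (fun c => μ (Pi.single c 1)) fun w => by
      rw [← e]
      have : μ (L w) ∈ (LinearMap.range L).map μ := Submodule.mem_map_of_mem ⟨w, rfl⟩
      rw [h2] at this
      simpa using this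
    apply h1
    ext x
    simpa using congrFun h3 x
  have h1 := ker_mul L.toAddMonoidHom
  have h2 : L.toAddMonoidHom.range = ⊤ := by
    rw [AddMonoidHom.range_eq_top]
    exact LinearMap.range_eq_top.1 hs
  rw [h2, AddSubgroup.card_top] at h1
  rw [card_fun, card_fun] at h1
  rw [← h1]
  exact Nat.mul_le_mul_right _ (fib_le L.toAddMonoidHom t)

variable {ι : Type} [Fintype ι] [DecidableEq ι]

/-- the pencil operator as a linear map -/
def ptL (P : Finset ι) (o : F2) : (ι → F2) →ₗ[F2] ι → F2 where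
  toFun := pt P o
  map_add' := fun y y' => by
    funext l
    simp only [pt, Pi.add_apply, Finset.sum_add_distrib]
    split_ifs <;> ring
  map_smul' := fun c y => by
    funext l
    simp only [pt, Pi.smul_apply, smul_eq_mul, RingHom.id_apply, ← Finset.mul_sum]
    split_ifs <;> ring

/-- the scalar product as a linear map -/
def dotL (B : Finset ι) (y : ι → F2) : (ι → F2) →ₗ[F2] F2 where
  toFun := dot B y
  map_add' := fun v v' => by simp [dot, mul_add, Finset.sum_add_distrib]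
  map_smul' := fun c v => by
    simp only [dot, Pi.smul_apply, smul_eq_mul, RingHom.id_apply, Finset.mul_sum]
    exact Finset.sum_congr rfl fun _ _ => by ring

theorem pt_pt (P : Finset ι) (o : F2) (ho : o = 1 → Even P.card) (y : ι → F2) (l : ι)
    (hl : l ∈ P) : pt P o (pt P o y) l = y l := by
  have h1 : ∑ l' ∈ P, pt P o y l' = ∑ l' ∈ P, y l' + P.card * (o * ∑ l' ∈ P, y l') := by
    rw [← nsmul_eq_mul, ← Finset.sum_const, ← Finset.sum_add_distrib]
    exact Finset.sum_congr rfl fun l' h => by simp [pt, h]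
  have h2 : (2 : F2) = 0 := rfl
  have h3 : o * (P.card : F2) = 0 := by
    have : ∀ o : F2, o = 0 ∨ o = 1 := by decide
    rcases this o with h | h
    · simp [h]
    · rw [(ZMod.natCast_eq_zero_iff_even).2 (ho h), mul_zero]
  rw [pt, if_pos hl, h1, pt, if_pos hl]
  linear_combination (o * ∑ l' ∈ P, y l') * h2 + (o * ∑ l' ∈ P, y l') * h3

/-- the conditions on the next member of a chain -/
def nx (S : Matrix ι ι F2) (e : ι → F2) (B P : Finset ι) (o : F2) {j : ℕ}
    (y : Fin j → ι → F2) : (ι → F2) →ₗ[F2] (Unit ⊕ {l // l ∉ B} ⊕ Fin j) → F2 :=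
  LinearMap.pi (Sum.elim (fun _ => dotL univ e) (Sum.elim
    (fun l => (LinearMap.proj l.1).comp (if l.1 ∈ P then ptL P o else S.mulVecLin))
    fun i => (dotL B (y i)).comp (ptL P o)))

theorem nx_card (S : Matrix ι ι F2) (e : ι → F2) (B P J : Finset ι) (o : F2) (m z : ℕ)
    (hok : Ok i2 i2 S e B P J false m z) (ho : o = 1 → Even P.card) {j : ℕ}
    (y : Fin j → ι → F2) (hy : Idp (P ∩ B) y) (t) :
    Nat.card {w // nx S e B P o y w = t} * 2 ^ (1 + Bᶜ.card + j) ≤ 2 ^ Fintype.card ι := by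
  have hc : Fintype.card (Unit ⊕ {l // l ∉ B} ⊕ Fin j) = 1 + Bᶜ.card + j := by
    simp [Fintype.card_subtype_compl, Finset.card_compl, add_assoc]
  rw [← hc]
  refine aff _ (fun lam h => ?_) t
  have hx : ∀ w, lam (.inl ()) * dot univ e w +
      (∑ l : {l // l ∉ B}, lam (.inr (.inl l)) * (if l.1 ∈ P then pt P o w l else (S *ᵥ w) l) +
      ∑ i, lam (.inr (.inr i)) * dot B (y i) (pt P o w)) = 0 := by
    intro w
    refine Eq.trans ?_ (h w)
    rw [Fintype.sum_sum_type, Fintype.sum_sum_type]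
    refine congrArg₂ (· + ·) (by simp [nx, dotL])
      (congrArg₂ (· + ·) (Finset.sum_congr rfl fun l _ => ?_) rfl)
    by_cases hl : l.1 ∈ P <;> simp [nx, hl, ptL]
  set u : ι → F2 := fun l => if h : l ∉ B then lam (.inr (.inl ⟨l, h⟩)) else 0 with hu
  have hs : ∀ g : ι → F2, ∑ l : {l // l ∉ B}, lam (.inr (.inl l)) * g l = ∑ l, u l * g l := by
    intro g
    rw [← Fintype.sum_subtype_add_sum_subtype (fun l => l ∉ B) fun l => u l * g l]
    rw [Finset.sum_eq_zero (s := (univ : Finset {l // ¬l ∉ B})) fun l _ => by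
      simp only [hu, dif_neg l.2, zero_mul], add_zero]
    exact Finset.sum_congr rfl fun l _ => by simp only [hu, dif_pos l.2]
  obtain ⟨h1, h2⟩ := hok.row (fun l => if l ∈ P then 0 else u l) (lam (.inl ()))
    (fun l hl => by simp [hu, hl]) fun l' hB hP => by
      have h0 : pt P o (Pi.single l' 1) = 0 := by
        funext l
        have : ∑ x ∈ P, (Pi.single l' 1 : ι → F2) x = 0 :=
          Finset.sum_eq_zero fun x hx => Pi.single_eq_of_ne (by rintro rfl; exact hP hx) _
        by_cases hl : l ∈ P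
        · have : l ≠ l' := by rintro rfl; exact hP hl
          simp [pt, *]
        · simp [pt, hl]
      have := hx (Pi.single l' 1)
      rw [hs fun l => if l ∈ P then pt P o (Pi.single l' 1) l else (S *ᵥ Pi.single l' 1) l,
        h0] at this
      refine Eq.trans ?_ this
      simp only [dot, Pi.zero_apply, mul_zero, Finset.sum_const_zero, add_zero, RingHom.id_apply]
      rw [add_comm]
      congr 1
      · simp [Pi.single_apply]
      · exact Finset.sum_congr rfl fun l _ => by split_ifs <;> simp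
  have h3 : ∀ l0 ∈ P, u l0 + (if l0 ∈ B then ∑ i, lam (.inr (.inr i)) * y i l0 else 0) = 0 := by
    intro l0 h0
    have h4 : pt P o (pt P o (Pi.single l0 1)) = Pi.single l0 1 := by
      funext l
      by_cases hl : l ∈ P
      · exact pt_pt P o ho _ l hl
      · have : l ≠ l0 := by rintro rfl; exact hl h0
        rw [pt, if_neg hl, Pi.single_eq_of_ne this]
    have := hx (pt P o (Pi.single l0 1))
    rw [hs fun l => if l ∈ P then pt P o (pt P o (Pi.single l0 1)) l
      else (S *ᵥ pt P o (Pi.single l0 1)) l, h4, h2, zero_mul, zero_add] at this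
    refine Eq.trans ?_ this
    congr 1
    · rw [Finset.sum_eq_single l0]
      · simp [h0]
      · intro l _ hl
        split_ifs with hP
        · simp [hl]
        · have := congrFun h1 l
          simp only [if_neg hP, Pi.zero_apply] at this
          rw [this, zero_mul]
      · simp
    · split_ifs with hB <;> simp [dot, Pi.single_apply, hB]
  have h5 := hy (fun i => lam (.inr (.inr i))) fun l hl => by
    have := h3 l (Finset.mem_inter.1 hl).1
    have hB := (Finset.mem_inter.1 hl).2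
    simpa [hu, hB] using this
  funext c
  rcases c with _ | l | i
  · exact h2
  · by_cases hP : l.1 ∈ P
    · have := h3 l.1 hP
      simpa [hu, l.2] using this
    · have := congrFun h1 l.1
      simpa [hu, hP, l.2] using this
  · exact congrFun h5 i

theorem idp_comp {j j' : ℕ} (F : Finset ι) (y : Fin j → ι → F2) (g : Fin j' → Fin j)
    (hg : g.Injective) (h : Idp F y) : Idp F fun i => y (g i) := by
  intro a ha
  have h1 := h (Function.extend g a 0) fun l hl => by
    rw [← ha l hl]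
    refine (Fintype.sum_of_injective g hg _ _ (fun i hi => ?_) fun i => ?_).symm
    · rw [Function.extend_apply' _ _ _ hi]; simp
    · rw [hg.extend_apply]
  funext i
  rw [← hg.extend_apply a 0 i, h1]
  rfl

/-- the rows off `B` and off `P` -/
def Ee (S : Matrix ι ι F2) (B P : Finset ι) (w : ι → F2) : Prop :=
  ∀ l, l ∉ B → l ∉ P → (S *ᵥ w) l = 0

theorem cn_init (S : Matrix ι ι F2) (e : ι → F2) (B P : Finset ι) (o : F2) {j : ℕ}
    (y : Fin (j + 2) → ι → F2) (h : Cn S e B P o y) :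
    Cn S e B P o (Fin.init y) ∧ Ee S B P (Fin.init y (Fin.last j)) :=
  ⟨⟨fun i => h.1 _, fun i l hl => h.2.1 i.castSucc l hl, fun i i' => h.2.2 i.castSucc i'.castSucc⟩,
    fun l hB hP => by
      have := h.2.1 (Fin.last j) l hB
      simpa [vv, pt, hP, Fin.init] using this⟩

theorem step (S : Matrix ι ι F2) (e : ι → F2) (B P J : Finset ι) (o : F2) (m z : ℕ)
    (hok : Ok i2 i2 S e B P J false m z) (ho : o = 1 → Even P.card) {j : ℕ}
    (q : (Fin (j + 1) → ι → F2) → Prop) (hq : ∀ y, q y → Idp (P ∩ B) y) :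
    Nat.card {y : Fin (j + 2) → ι → F2 //
        q (Fin.init y) ∧ Cn S e B P o y ∧ Ee S B P (y (Fin.last _))} * 2 ^ (1 + Bᶜ.card + j) ≤
      Nat.card {y // q y} * 2 ^ Fintype.card ι := by
  refine card_fib _ q Fin.init (fun y => y (Fin.last _))
    (fun y w => nx S e B P o (fun i => y i.castSucc) w = Sum.elim (fun _ => 0) (Sum.elim
      (fun l : {l // l ∉ B} => if l.1 ∈ P then (S *ᵥ y (Fin.last j)) l else 0) fun i =>
        dot B (y i.castSucc) (S *ᵥ y (Fin.last j)) + dot B (y (Fin.last j)) (vv S P o y i)))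
    _ _ (fun x x' h1 h2 => ?_) (fun y hy => ⟨hy.1, ?_⟩) fun y hy =>
      nx_card S e B P J o m z hok ho _ (idp_comp _ _ _ (Fin.castSucc_injective _) (hq y hy)) _
  · rw [← Fin.snoc_init_self x, ← Fin.snoc_init_self x', h1, h2]
  · obtain ⟨-, ⟨h1, h2, h3⟩, h4⟩ := hy
    funext c
    rcases c with _ | l | i
    · exact h1 _
    · have := h2 (Fin.last j) l l.2
      by_cases hP : l.1 ∈ P
      · simp only [vv, Pi.sub_apply, sub_eq_zero, Fin.succ_last] at this
        simpa [nx, hP, ptL, Fin.init] using this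
      · simpa [nx, hP] using h4 l l.2 hP
    · have := h3 i.castSucc (Fin.last j)
      rw [vv, Fin.succ_last] at this
      have h5 := (dotL B (y i.castSucc.castSucc)).map_sub (pt P o (y (Fin.last _)))
        (S *ᵥ y (Fin.last j).castSucc)
      change dot B (y i.castSucc.castSucc) (pt P o (y (Fin.last _))) =
        dot B (y i.castSucc.castSucc) (S *ᵥ y (Fin.last j).castSucc) +
          dot B (y (Fin.last j).castSucc) (vv S P o y i.castSucc)
      rw [← this]
      exact (sub_eq_iff_eq_add'.1 h5.symm)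

theorem tri (j : ℕ) : (j + 1) * (j + 1 - 1) / 2 = j * (j - 1) / 2 + j := by
  rw [← Nat.choose_two_right, ← Nat.choose_two_right, Nat.choose_succ_succ, Nat.choose_one_right,
    add_comm]

theorem chain (S : Matrix ι ι F2) (e : ι → F2) (B P J : Finset ι) (o : F2) (m z : ℕ)
    (hok : Ok i2 i2 S e B P J false m z) (ho : o = 1 → Even P.card) (k : ℕ)
    (R : (Fin (k + 1) → ι → F2) → Prop) (d : ℕ) :
    Nat.card {y : Fin (k + d + 1) → ι → F2 // Idp (P ∩ B) y ∧ Cn S e B P o y ∧
        (d ≠ 0 → Ee S B P (y (Fin.last _))) ∧ R fun i => y (Fin.castLE (by omega) i)} *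
        2 ^ (d * (1 + Bᶜ.card) + (k + d) * (k + d - 1) / 2) ≤
      Nat.card {y // Cn S e B P o y ∧ R y} * 2 ^ (d * Fintype.card ι + k * (k - 1) / 2) := by
  induction d with
  | zero =>
    simp only [zero_mul, zero_add, add_zero]
    exact Nat.mul_le_mul_right _ (card_mono fun y hy => ⟨hy.2.1, hy.2.2.2⟩)
  | succ d ih =>
    have h1 := step S e B P J o m z hok ho (j := k + d) (fun y => Idp (P ∩ B) y ∧
      Cn S e B P o y ∧ (d ≠ 0 → Ee S B P (y (Fin.last _))) ∧
      R fun i => y (Fin.castLE (by omega) i)) fun y hy => hy.1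
    have h2 := card_mono (α := Fin (k + (d + 1) + 1) → ι → F2)
      (p := fun y => Idp (P ∩ B) y ∧ Cn S e B P o y ∧
        (d + 1 ≠ 0 → Ee S B P (y (Fin.last _))) ∧ R fun i => y (Fin.castLE (by omega) i))
      (q := fun y => (Idp (P ∩ B) (Fin.init y) ∧ Cn S e B P o (Fin.init y) ∧
        (d ≠ 0 → Ee S B P (Fin.init y (Fin.last _))) ∧
        R fun i => Fin.init y (Fin.castLE (by omega) i)) ∧ Cn S e B P o y ∧
        Ee S B P (y (Fin.last _)))
      fun y hy => ⟨⟨idp_comp _ y _ (Fin.castSucc_injective _) hy.1,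
        (cn_init S e B P o y hy.2.1).1, fun _ => (cn_init S e B P o y hy.2.1).2, hy.2.2.2⟩,
        hy.2.1, hy.2.2.1 (by omega)⟩
    have e1 : (d + 1) * (1 + Bᶜ.card) + (k + (d + 1)) * (k + (d + 1) - 1) / 2 =
        (1 + Bᶜ.card + (k + d)) + (d * (1 + Bᶜ.card) + (k + d) * (k + d - 1) / 2) := by
      rw [← add_assoc k d 1, tri]; ring
    have e2 : (d + 1) * Fintype.card ι + k * (k - 1) / 2 =
        (d * Fintype.card ι + k * (k - 1) / 2) + Fintype.card ι := by ring
    rw [e1, e2, pow_add, pow_add _ _ (Fintype.card ι), ← mul_assoc, ← mul_assoc]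
    refine (Nat.mul_le_mul_right _ ((Nat.mul_le_mul_right _ h2).trans h1)).trans ?_
    rw [mul_right_comm]
    exact Nat.mul_le_mul_right _ ih

/-- the conditions on the coefficients -/
def gm (B P : Finset ι) (o : F2) {k f : ℕ} (x : Fin k → ι → F2) (y : Fin f → ι → F2) :
    (Fin f → F2) →ₗ[F2] Fin k → F2 :=
  LinearMap.pi fun i => ((dotL B (x i)).comp (ptL P o)).comp (Fintype.linearCombination F2 y)

theorem gm_card (B P : Finset ι) (o : F2) {k f : ℕ} (y : Fin f → ι → F2) (g : Fin k → Fin f)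
    (t : Fin k → F2) :
    Nat.card {a // gm B P o (fun i => y (g i)) y a = t} * 2 ^ k ≤
      2 ^ f * Nat.card {a // gm B P o (fun i => y (g i)) (fun i => y (g i)) a = 0} := by
  have h1 := ker_mul (gm B P o (fun i => y (g i)) y).toAddMonoidHom
  have h2 := ker_mul (gm B P o (fun i => y (g i)) fun i => y (g i)).toAddMonoidHom
  rw [card_fun, Fintype.card_fin] at h1 h2
  have h3 : (gm B P o (fun i => y (g i)) fun i => y (g i)).toAddMonoidHom.range ≤
      (gm B P o (fun i => y (g i)) y).toAddMonoidHom.range := by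
    rintro _ ⟨a, rfl⟩
    have : Fintype.linearCombination F2 (fun i => y (g i)) a ∈ Submodule.span F2 (Set.range y) := by
      rw [Fintype.linearCombination_apply]
      exact Submodule.sum_mem _ fun i _ => Submodule.smul_mem _ _ (Submodule.subset_span ⟨_, rfl⟩)
    rw [← Fintype.range_linearCombination] at this
    obtain ⟨a', h⟩ := this
    exact ⟨a', funext fun i => congrArg ((dotL B (y (g i))).comp (ptL P o)) h⟩
  have h4 := AddSubgroup.card_le_of_le h3
  have h5 := fib_le (gm B P o (fun i => y (g i)) y).toAddMonoidHom t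
  rw [← h1, ← h2]
  calc _ ≤ _ := Nat.mul_le_mul h5 (Nat.mul_le_mul_left _ h4)
    _ = _ := by
      rw [mul_comm (Nat.card (gm B P o (fun i => y (g i)) fun i => y (g i)).toAddMonoidHom.ker),
        ← mul_assoc]
      rfl

theorem short (hch : SCH) (S : Matrix ι ι F2) (e : ι → F2) (B P J : Finset ι) (o : F2)
    (m z k : ℕ) (hok : Ok i2 i2 S e B P J false m z) (hm : 4 * (k + 1) * (k + z + 3) ≤ m) :
    (∑ a : Fin (k + 1) → F2, Nat.card {y // Cn S e B P o y ∧ gm B P o y y a = 0}) *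
      2 ^ (k + 1 + Bᶜ.card * k + k * (k - 1) / 2) ≤ 6 * 2 ^ ((k + 1) * Fintype.card ι) := by
  have h0 := hch ι S e B P J o m z k ∅ (fun _ => 1) 0 0 hok hm (by simp) rfl
  have h1 : ∀ a : Fin (k + 1) → F2, a ≠ 0 → Nat.card {y // Cn S e B P o y ∧ gm B P o y y a = 0} *
      2 ^ (k + 1 + Bᶜ.card * k + k * (k - 1) / 2) * 2 ^ k ≤ 2 * 2 ^ ((k + 1) * Fintype.card ι) := by
    intro a ha
    obtain ⟨i0, hi⟩ := Function.ne_iff.1 ha
    have h2 : ∀ x : F2, x ≠ 0 → x = 1 := by decide
    have := hch ι S e B P J o m z k (univ.erase i0) a i0 0 hok hm (by simp) (h2 _ hi)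
    rw [Finset.card_erase_of_mem (mem_univ _), card_univ, Fintype.card_fin, Nat.add_sub_cancel,
      pow_add, ← mul_assoc] at this
    refine le_trans (Nat.mul_le_mul_right _ (Nat.mul_le_mul_right _
      (card_mono fun y hy => ⟨hy.1, fun i _ => ?_⟩))) this
    exact congrFun hy.2 i
  rw [Finset.sum_mul, ← Finset.add_sum_erase _ _ (mem_univ 0)]
  have h2 := Finset.sum_le_card_nsmul _ _ _ fun a (ha : a ∈ univ.erase 0) =>
    h1 a (Finset.ne_of_mem_erase ha)
  rw [← Finset.sum_mul, smul_eq_mul] at h2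
  have h3 : (univ.erase (0 : Fin (k + 1) → F2)).card ≤ 2 * 2 ^ k := by
    refine Finset.card_erase_le.trans ?_
    simp [pow_succ']
  have h4 := h2.trans (Nat.mul_le_mul_right _ h3)
  rw [mul_right_comm] at h4
  have h5 := Nat.le_of_mul_le_mul_right h4 (by positivity)
  have h6 := (Nat.mul_le_mul_right _ (card_mono (α := Fin (k + 1) → ι → F2)
    (p := fun y => Cn S e B P o y ∧ gm B P o y y 0 = 0) fun y hy => ⟨hy.1, by simp⟩)).trans h0
  simp only [Finset.card_empty, add_zero] at h6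
  omega

/-- the conditions that do not involve the random part -/
def Good (S : Matrix ι ι F2) (e : ι → F2) (B P : Finset ι) (o : F2) {f : ℕ} (y : Fin f → ι → F2)
    (a : Fin f → F2) : Prop :=
  Idp (P ∩ B) y ∧ (∀ j, dot univ e (y j) = 0) ∧
    (∀ j l, l ∉ B → (pt P o (nxt y a j) - S *ᵥ y j) l = 0) ∧
    ∀ i j, dot B (y i) (pt P o (nxt y a j) - S *ᵥ y j) =
      dot B (y j) (pt P o (nxt y a i) - S *ᵥ y i)

omit [Fintype ι] [DecidableEq ι] in
theorem nxt_cast {j : ℕ} (y : Fin (j + 1) → ι → F2) (a : Fin (j + 1) → F2) (i : Fin j) :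
    nxt y a i.castSucc = y i.succ := by
  rw [nxt, dif_pos (by simp)]
  rfl

omit [Fintype ι] [DecidableEq ι] in
theorem nxt_last {j : ℕ} (y : Fin (j + 1) → ι → F2) (a : Fin (j + 1) → F2) :
    nxt y a (Fin.last j) = ∑ i, a i • y i := by
  rw [nxt, dif_neg (by simp)]

theorem good_a (S : Matrix ι ι F2) (e : ι → F2) (B P : Finset ι) (o : F2) (k d : ℕ)
    (y : Fin (k + (d + 1) + 1) → ι → F2) :
    Nat.card {a // Good S e B P o y a} * 2 ^ (k + 1) ≤ 2 ^ (k + (d + 1) + 1) *
      Nat.card {a : Fin (k + 1) → F2 // Idp (P ∩ B) y ∧ Cn S e B P o y ∧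
        (d + 1 ≠ 0 → Ee S B P (y (Fin.last _))) ∧
        gm B P o (fun i : Fin (k + 1) => y (Fin.castLE (by omega) i))
          (fun i => y (Fin.castLE (by omega) i)) a = 0} := by
  by_cases h : ∃ a, Good S e B P o y a
  swap
  · have : IsEmpty {a // Good S e B P o y a} := ⟨fun a => h ⟨a.1, a.2⟩⟩
    simp
  obtain ⟨a0, h1, h2, h3, h4⟩ := h
  have hc : Cn S e B P o y := ⟨h2, fun j l hl => by
    simpa only [nxt_cast, vv] using h3 j.castSucc l hl, fun i j => by
    simpa only [nxt_cast, vv] using h4 i.castSucc j.castSucc⟩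
  have he : Ee S B P (y (Fin.last _)) := fun l hB hP => by
    simpa [pt, hP] using h3 (Fin.last _) l hB
  refine le_trans (Nat.mul_le_mul_right _ (card_mono fun a ha => ?_))
    ((gm_card B P o y (Fin.castLE (by omega : k + 1 ≤ k + (d + 1) + 1)) fun i =>
      dot B (y (Fin.castLE (by omega) i)) (S *ᵥ y (Fin.last _)) +
      dot B (y (Fin.last _)) (vv S P o y (Fin.castLE (by omega) i))).trans
      (Nat.mul_le_mul_left _ (card_mono fun a ha => ⟨h1, hc, fun _ => he, ha⟩)))
  funext i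
  have := ha.2.2.2 (Fin.castLE (by omega : k + 1 ≤ k + (d + 1)) i).castSucc (Fin.last _)
  rw [nxt_cast, nxt_last] at this
  have h5 := (dotL B (y (Fin.castLE (by omega) i))).map_sub (pt P o (∑ i, a i • y i))
    (S *ᵥ y (Fin.last _))
  exact sub_eq_iff_eq_add'.1 (h5.symm.trans this)

theorem arith (X1 X2 X3 k d t t0 b c w : ℕ) (h1 : X1 * 2 ^ (k + 1) ≤ 2 ^ (k + (d + 1) + 1) * X2)
    (h2 : X2 * 2 ^ ((d + 1) * (1 + c) + t) ≤ X3 * 2 ^ ((d + 1) * (b + c) + t0))
    (h3 : X3 * 2 ^ (k + 1 + c * k + t0) ≤ 6 * 2 ^ ((k + 1) * (b + c))) :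
    X1 * 2 ^ (t + (k + (d + 1)) + k) ≤
      2 ^ (c + w + 1 + (k + (d + 1) + 1) + (k + (d + 1) + 1) * b) := by
  refine Nat.le_of_mul_le_mul_right (c := 2 ^ (k + 1 + (d + 1) * c + c * k + t0 + 1))
    ?_ (by positivity)
  calc _ = X1 * 2 ^ (k + 1) * 2 ^ ((d + 1) * (1 + c) + t) * 2 ^ (k + 1 + c * k + t0) * 2 ^ k := by
        ring
    _ ≤ 2 ^ (k + (d + 1) + 1) * X2 * 2 ^ ((d + 1) * (1 + c) + t) * 2 ^ (k + 1 + c * k + t0) *
        2 ^ k := by gcongr
    _ = 2 ^ (k + (d + 1) + 1) * (X2 * 2 ^ ((d + 1) * (1 + c) + t)) * 2 ^ (k + 1 + c * k + t0) *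
        2 ^ k := by ring
    _ ≤ 2 ^ (k + (d + 1) + 1) * (X3 * 2 ^ ((d + 1) * (b + c) + t0)) * 2 ^ (k + 1 + c * k + t0) *
        2 ^ k := by gcongr
    _ = 2 ^ (k + (d + 1) + 1) * 2 ^ ((d + 1) * (b + c) + t0) * (X3 * 2 ^ (k + 1 + c * k + t0)) *
        2 ^ k := by ring
    _ ≤ 2 ^ (k + (d + 1) + 1) * 2 ^ ((d + 1) * (b + c) + t0) * (8 * 2 ^ ((k + 1) * (b + c))) *
        2 ^ k := by
        have h4 : X3 * 2 ^ (k + 1 + c * k + t0) ≤ 8 * 2 ^ ((k + 1) * (b + c)) := by omega
        gcongr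
    _ = 1 * (2 ^ (c + 1 + (k + (d + 1) + 1) + (k + (d + 1) + 1) * b) *
        2 ^ (k + 1 + (d + 1) * c + c * k + t0 + 1)) := by ring
    _ ≤ 2 ^ w * (2 ^ (c + 1 + (k + (d + 1) + 1) + (k + (d + 1) + 1) * b) *
        2 ^ (k + 1 + (d + 1) * c + c * k + t0 + 1)) := by gcongr; exact Nat.one_le_two_pow
    _ = _ := by ring

theorem good_card (hch : SCH) (S : Matrix ι ι F2) (e : ι → F2) (B P J : Finset ι) (o : F2)
    (m z k d : ℕ) (hok : Ok i2 i2 S e B P J false m z) (ho : o = 1 → Even P.card)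
    (hm : 4 * (k + 1) * (k + z + 3) ≤ m) :
    Nat.card {q : (Fin (k + (d + 1) + 1) → ι → F2) × (Fin (k + (d + 1) + 1) → F2) //
        Good S e B P o q.1 q.2} *
      2 ^ ((k + (d + 1) + 1) * (k + (d + 1) + 1 - 1) / 2 + k) ≤
      2 ^ (z + 1 + (k + (d + 1) + 1) + (k + (d + 1) + 1) * B.card) := by
  rw [card_prod fun y a => Good S e B P o y a]
  have h1 := Finset.sum_le_sum fun y (_ : y ∈ univ) => good_a S e B P o k d y
  rw [← Finset.sum_mul, ← Finset.mul_sum,
    card_swap (α := Fin (k + (d + 1) + 1) → ι → F2) (β := Fin (k + 1) → F2)] at h1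
  have h2 := Finset.sum_le_sum fun (a : Fin (k + 1) → F2) (_ : a ∈ univ) =>
    chain S e B P J o m z hok ho k (fun x => gm B P o x x a = 0) (d + 1)
  rw [← Finset.sum_mul, ← Finset.sum_mul] at h2
  have h3 := short hch S e B P J o m z k hok hm
  obtain ⟨w, hw⟩ := Nat.exists_eq_add_of_le hok.sml
  have hn : Fintype.card ι = B.card + Bᶜ.card := (Finset.card_add_card_compl B).symm
  rw [hn] at h2 h3
  rw [tri, hw]
  exact arith _ _ _ _ _ _ _ _ _ _ h1 h2 h3

end GD

open GD in
theorem rowGD : OfGD := by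
  intro hav _ hhp hch ι _ _ S e B P o m z k f hok ho hm hf
  obtain ⟨d, rfl⟩ : ∃ d, f = k + (d + 1) + 1 := ⟨f - k - 2, by omega⟩
  have h1 := good_card hch S e B P _ o m z k d hok ho hm
  generalize k + (d + 1) + 1 = f at h1 ⊢
  unfold GT
  rw [hav.cnt _ _ _ fun H (q : (Fin f → ι → F2) × (Fin f → F2)) => Idp (P ∩ B) q.1 ∧
    (∀ j, dot univ e (q.1 j) = 0) ∧ ∀ j, (S + H) *ᵥ q.1 j = pt P o (nxt q.1 q.2 j)]
  have h2 : ∀ q : (Fin f → ι → F2) × (Fin f → F2), Ex (Hs i2 B (P ∩ B)) (fun H =>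
      ind (Idp (P ∩ B) q.1 ∧ (∀ j, dot univ e (q.1 j) = 0) ∧
        ∀ j, (S + H) *ᵥ q.1 j = pt P o (nxt q.1 q.2 j))) ≤
      ind (Good S e B P o q.1 q.2) * (2 ^ (f * (f - 1) / 2) / 2 ^ (f * B.card)) := by
    rintro ⟨y, a⟩
    by_cases h : Idp (P ∩ B) y ∧ (∀ j, dot univ e (y j) = 0) ∧
      ∀ j l, l ∉ B → (pt P o (nxt y a j) - S *ᵥ y j) l = 0
    · refine le_trans (hav.mono _ _ _ _ fun H _ => ?_) ((hhp.one ι B (P ∩ B) f y
        (fun j => pt P o (nxt y a j) - S *ᵥ y j) Finset.inter_subset_right h.1).trans ?_)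
      · unfold ind
        split_ifs with c1 c2 <;> try norm_num
        exact c2 fun i l _ => by rw [← c1.2.2 i, Matrix.add_mulVec]; simp
      · rw [mul_div_assoc]
        refine mul_le_mul_of_nonneg_right ?_ (by positivity)
        unfold ind
        split_ifs with c1 c2 <;> try norm_num
        exact c2 ⟨h.1, h.2.1, h.2.2, c1⟩
    · refine le_trans (hav.mono _ _ _ (fun _ => 0) fun H hH => ?_) ?_
      · unfold ind
        split_ifs with c1
        · refine absurd ⟨c1.1, c1.2.1, fun j l hl => ?_⟩ h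
          rw [← c1.2.2 j, Matrix.add_mulVec]
          simp only [add_sub_cancel_left, Matrix.mulVec, dotProduct]
          exact Finset.sum_eq_zero fun l' _ => by rw [hH.2.2 l l' fun c => hl c.1, zero_mul]
        · exact le_rfl
      · rw [hav.const]
        unfold ind
        split_ifs <;> positivity
  refine (Finset.sum_le_sum fun q _ => h2 q).trans ?_
  rw [← Finset.sum_mul]
  have h3 : ∑ q : (Fin f → ι → F2) × (Fin f → F2), ind (Good S e B P o q.1 q.2) =
      Nat.card {q : (Fin f → ι → F2) × (Fin f → F2) // Good S e B P o q.1 q.2} := by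
    classical
    rw [Nat.card_eq_fintype_card, Fintype.card_subtype, Finset.card_filter]
    simp only [ind, Nat.cast_sum, Nat.cast_ite, Nat.cast_one, Nat.cast_zero]
  rw [h3, ← mul_div_assoc, div_le_div_iff₀ (by positivity) (by positivity), mul_assoc, ← pow_add,
    ← pow_add]
  exact_mod_cast h1

end Pool.Agent.MP_1246c0_nt.H12
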